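import Mathlib

set_option autoImplicit false

namespace Pool.Agent.Results.MP_8ede36_co.LocallyFinite

abbrev E := EuclideanSpace ℝ (Fin 2)

/-- points of a grid that gets finer far from the origin -/
def P : Set E := {x | ∃ k : ℕ, (k : ℝ) - 1 ≤ ‖x‖ ∧ ∀ i, ∃ z : ℤ, x i * (20 * ((k : ℝ) + 2) ^ 2) = z}

/-- join two points at distance at most one -/
def G : SimpleGraph P where
  Adj x y := x ≠ y ∧ ‖x.1 - y.1‖ ≤ 1
  symm := ⟨fun _ _ h => ⟨h.1.symm, by rw [norm_sub_rev]; exact h.2⟩⟩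
  loopless := ⟨fun _ h => h.1 rfl⟩

lemma near (p : E) : ∃ v : P, ‖v.1 - p‖ * (10 * (1 + ‖p‖) ^ 2) ≤ 1 := by
  set k := ⌊‖p‖⌋₊
  have h1 : (k : ℝ) ≤ ‖p‖ := Nat.floor_le (norm_nonneg p)
  have h2 : ‖p‖ < k + 1 := Nat.lt_floor_add_one _
  have hk : (0 : ℝ) ≤ k := by positivity
  set N : ℝ := 20 * ((k : ℝ) + 2) ^ 2 with hN
  have hN0 : 80 ≤ N := by nlinarith
  let v : E := WithLp.toLp 2 fun i => (⌊p i * N⌋ : ℝ) / N
  have hv : ∀ i, |(v - p) i| ≤ 1 / N := by
    intro i
    have a1 := Int.floor_le (p i * N)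
    have a2 := Int.lt_floor_add_one (p i * N)
    have e : (v - p) i = ((⌊p i * N⌋ : ℝ) - p i * N) / N := by
      simp only [v, PiLp.sub_apply]; field_simp
    rw [e, abs_div, abs_of_pos (by linarith : (0 : ℝ) < N)]
    apply div_le_div_of_nonneg_right _ (by linarith)
    rw [abs_le]; constructor <;> linarith
  have hn : ‖v - p‖ ≤ 2 / N := by
    rw [EuclideanSpace.norm_eq, Real.sqrt_le_iff, Fin.sum_univ_two]
    have a0 := hv 0
    have a1 := hv 1
    have b0 := abs_nonneg ((v - p) 0)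
    have b1 := abs_nonneg ((v - p) 1)
    have e : 2 / N = 2 * (1 / N) := by ring
    simp only [Real.norm_eq_abs]
    rw [e]
    constructor
    · linarith
    · nlinarith
  have hn' : ‖v - p‖ * N ≤ 2 := by rwa [le_div_iff₀ (by linarith)] at hn
  have hb := norm_nonneg (v - p)
  refine ⟨⟨v, k, ?_, fun i => ⟨⌊p i * N⌋, ?_⟩⟩, ?_⟩
  · have := norm_sub_norm_le p v
    rw [norm_sub_rev] at this
    nlinarith
  · simp only [v]; rw [← hN]; field_simp
  · have h3 : (1 + ‖p‖) ^ 2 ≤ ((k : ℝ) + 2) ^ 2 := by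
      have := norm_nonneg p
      nlinarith
    nlinarith

lemma fin_ball (R : ℝ) : {x : P | ‖x.1‖ ≤ R}.Finite := by
  obtain ⟨K, hK⟩ := exists_nat_ge (R + 1)
  obtain ⟨M, hM⟩ := exists_nat_ge (R * (20 * ((K : ℝ) + 2) ^ 2))
  have h1 : (Set.Iic K ×ˢ Set.pi Set.univ fun _ : Fin 2 => Set.Icc (-(M : ℤ)) M).Finite :=
    (Set.finite_Iic K).prod (Set.Finite.pi fun _ => Set.finite_Icc _ _)
  have h2 := h1.image fun a : ℕ × (Fin 2 → ℤ) =>
    (WithLp.toLp 2 fun i => (a.2 i : ℝ) / (20 * ((a.1 : ℝ) + 2) ^ 2) : E)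
  refine (h2.preimage Subtype.val_injective.injOn).subset ?_
  rintro ⟨x, k, hk, hz⟩ hx
  have hx' : ‖x‖ ≤ R := hx
  obtain ⟨z, hz⟩ := Classical.skolem.1 hz
  have hkK : (k : ℝ) ≤ K := by linarith
  have hk0 : (0 : ℝ) ≤ k := by positivity
  refine ⟨(k, z), ⟨by exact_mod_cast hkK, fun i _ => ?_⟩, ?_⟩
  · have a1 : |x i| ≤ R := (PiLp.norm_apply_le x i).trans hx'
    have a2 : |(z i : ℝ)| ≤ M := by
      rw [← hz i, abs_mul, abs_of_pos (by positivity : (0 : ℝ) < 20 * ((k : ℝ) + 2) ^ 2)]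
      refine le_trans (mul_le_mul a1 ?_ (by positivity) ((abs_nonneg _).trans a1)) hM
      nlinarith
    have a3 := abs_le.1 a2
    exact ⟨by exact_mod_cast a3.1, by exact_mod_cast a3.2⟩
  · ext i
    simp only
    rw [← hz i]
    field_simp

lemma lower {x y : P} (w : G.Walk x y) : ‖x.1 - y.1‖ ≤ w.length := by
  induction w with
  | nil => simp
  | cons h w ih =>
    rename_i a b c
    have := norm_sub_le_norm_sub_add_norm_sub a.1 b.1 c.1
    have := h.2
    simp only [SimpleGraph.Walk.length_cons]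
    push_cast
    linarith

lemma extend {x y z : P} (h : ‖x.1 - y.1‖ ≤ 1) (w : G.Walk y z) :
    ∃ w' : G.Walk x z, w'.length ≤ w.length + 1 := by
  by_cases e : x = y
  · subst e; exact ⟨w, by omega⟩
  · exact ⟨SimpleGraph.Walk.cons ⟨e, h⟩ w, by simp⟩

/-- a bounded increasing function -/
noncomputable def g (s : ℝ) : ℝ := s / (1 + |s|)

lemma g_bound (s : ℝ) : -1 ≤ g s ∧ g s ≤ 1 := by
  have h : 0 < 1 + |s| := by positivity
  have := le_abs_self s
  have := neg_abs_le s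
  unfold g
  rw [le_div_iff₀ h, div_le_iff₀ h]
  constructor <;> linarith

lemma g_inc (s t : ℝ) (h : s ≤ t) : t - s ≤ (g t - g s) * ((1 + |s|) * (1 + |t|)) := by
  have hs : 0 < 1 + |s| := by positivity
  have ht : 0 < 1 + |t| := by positivity
  have e : (g t - g s) * ((1 + |s|) * (1 + |t|)) = t * (1 + |s|) - s * (1 + |t|) := by
    unfold g; field_simp
  rw [e]
  rcases le_total 0 s with a | a <;> rcases le_total 0 t with b | b <;>
    simp only [abs_of_nonneg, abs_of_nonpos, a, b] <;> nlinarith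

lemma upper (x : E) (y : P) (u : E) (hu : ‖u‖ = 1) (L : ℝ) (hy : y.1 = x + L • u) (n : ℕ) :
    ∀ (t : ℝ) (v : P), t ≤ L → 2 * (L - t) ≤ n →
      ‖v.1 - (x + t • u)‖ * (10 * (1 + |t + inner ℝ x u|) ^ 2) ≤ 1 →
      ∃ w : G.Walk v y, (w.length : ℝ) ≤ L - t + 2 * (1 - g (t + inner ℝ x u)) + 1 := by
  have hcs : ∀ t : ℝ, |t + inner ℝ x u| ≤ ‖x + t • u‖ := by
    intro t
    have h1 := abs_real_inner_le_norm (x + t • u) u
    rw [inner_add_left, real_inner_smul_left, real_inner_self_eq_norm_sq, hu] at h1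
    rw [add_comm]
    simpa using h1
  have hstop : ∀ (t : ℝ) (v : P), t ≤ L → L - t ≤ 9 / 10 →
      ‖v.1 - (x + t • u)‖ * (10 * (1 + |t + inner ℝ x u|) ^ 2) ≤ 1 →
      ∃ w : G.Walk v y, (w.length : ℝ) ≤ L - t + 2 * (1 - g (t + inner ℝ x u)) + 1 := by
    intro t v h1 h2 h3
    have a0 := abs_nonneg (t + inner ℝ x u)
    have a1 := norm_nonneg (v.1 - (x + t • u))
    have a2 : ‖v.1 - (x + t • u)‖ ≤ 1 / 10 := by nlinarith [sq_nonneg |t + inner ℝ x u|]
    have a3 : ‖(x + t • u) - y.1‖ = L - t := by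
      rw [hy, add_sub_add_left_eq_sub, ← sub_smul, norm_smul, hu, mul_one, Real.norm_eq_abs,
        abs_of_nonpos (by linarith)]; ring
    have a4 := norm_sub_le_norm_sub_add_norm_sub v.1 (x + t • u) y.1
    obtain ⟨w, hw⟩ := extend (x := v) (y := y) (by linarith) SimpleGraph.Walk.nil
    have a5 : (w.length : ℝ) ≤ 1 := by exact_mod_cast hw
    have := (g_bound (t + inner ℝ x u)).2
    exact ⟨w, by linarith⟩
  induction n with
  | zero => intro t v h1 h2 h3; exact hstop t v h1 (by simp at h2; linarith) h3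
  | succ n ih =>
    intro t v h1 h2 h3
    by_cases hc : L - t ≤ 9 / 10
    · exact hstop t v h1 hc h3
    set s := t + inner ℝ x u with hs
    set A := 1 + |s| with hA
    have hA1 : 1 ≤ A := by have := abs_nonneg s; linarith
    set e : ℝ := 1 / (10 * A ^ 2) with he
    have he0 : 0 < e := by positivity
    have heA : e * (10 * A ^ 2) = 1 := by rw [he]; field_simp
    have he1 : e ≤ 1 / 10 := by
      have : 1 ≤ A ^ 2 := one_le_pow₀ hA1
      nlinarith
    set d := min (1 - 5 * e) (L - t) with hd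
    have hd1 : d ≤ 1 - 5 * e := min_le_left _ _
    have hd2 : d ≤ L - t := min_le_right _ _
    have hd3 : 1 / 2 ≤ d := le_min (by linarith) (by linarith)
    have hd4 : 1 - 5 * e ≤ d ∨ d = L - t := by
      rcases min_choice (1 - 5 * e) (L - t) with h | h
      · exact Or.inl h.ge
      · exact Or.inr h
    obtain ⟨v', hv'⟩ := near (x + (t + d) • u)
    set B := 1 + |t + d + inner ℝ x u| with hB
    have hB1 : 1 ≤ B := by have := abs_nonneg (t + d + inner ℝ x u); linarith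
    have hAB : A ≤ B + 1 ∧ B ≤ A + 1 := by
      have a1 := abs_add_le (t + d + inner ℝ x u) (-d)
      have a2 := abs_add_le s d
      rw [abs_neg, abs_of_nonneg (by linarith : 0 ≤ d),
        show t + d + inner ℝ x u + -d = s by rw [hs]; ring] at a1
      rw [abs_of_nonneg (by linarith : 0 ≤ d), show s + d = t + d + inner ℝ x u by rw [hs]; ring] at a2
      constructor <;> linarith
    have b0 := norm_nonneg (v'.1 - (x + (t + d) • u))
    have hv2 : ‖v'.1 - (x + (t + d) • u)‖ * (10 * B ^ 2) ≤ 1 := by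
      refine le_trans (mul_le_mul_of_nonneg_left ?_ b0) hv'
      have := hcs (t + d)
      nlinarith
    obtain ⟨w, hw⟩ := ih (t + d) v' (by linarith) (by push_cast at h2; linarith) hv2
    have c1 : ‖v.1 - (x + t • u)‖ ≤ e := by
      rw [he, le_div_iff₀ (by positivity)]; exact h3
    have c2 : ‖v'.1 - (x + (t + d) • u)‖ ≤ 4 * e := by
      have a1 : A ^ 2 ≤ 4 * B ^ 2 := by nlinarith [hAB.1]
      have a2 : ‖v'.1 - (x + (t + d) • u)‖ * (10 * A ^ 2) ≤ 4 := by nlinarith
      rw [he, mul_one_div, le_div_iff₀ (by positivity)]; exact a2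
    have c3 : ‖(x + t • u) - (x + (t + d) • u)‖ = d := by
      rw [add_sub_add_left_eq_sub, ← sub_smul, norm_smul, hu, mul_one, Real.norm_eq_abs,
        abs_of_nonpos (by linarith)]; ring
    have c4 : ‖v.1 - v'.1‖ ≤ 1 := by
      have a1 := norm_sub_le_norm_sub_add_norm_sub v.1 (x + t • u) v'.1
      have a2 := norm_sub_le_norm_sub_add_norm_sub (x + t • u) (x + (t + d) • u) v'.1
      rw [norm_sub_rev (x + (t + d) • u)] at a2
      linarith
    rcases hd4 with hd4 | hd4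
    · obtain ⟨w', hw'⟩ := extend c4 w
      have a5 : (w'.length : ℝ) ≤ w.length + 1 := by exact_mod_cast hw'
      have a6 := g_inc s (t + d + inner ℝ x u) (by rw [hs]; linarith)
      rw [← hA, ← hB, show t + d + inner ℝ x u - s = d by rw [hs]; ring] at a6
      have a7 : 0 ≤ g (t + d + inner ℝ x u) - g s := by
        by_contra a8
        have : 0 < A * B := by positivity
        nlinarith
      have a8 : A * B ≤ 2 * A ^ 2 := by nlinarith [hAB.2]
      have a9 : 1 / 2 ≤ (g (t + d + inner ℝ x u) - g s) * (2 * A ^ 2) := by nlinarith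
      have a10 : 5 * e ≤ 2 * (g (t + d + inner ℝ x u) - g s) := by
        rw [he, mul_one_div, div_le_iff₀ (by positivity)]; nlinarith
      exact ⟨w', by linarith⟩
    · have a3 : ‖(x + t • u) - y.1‖ = d := by rw [hy, ← c3, hd4, add_sub_cancel]
      have a4 := norm_sub_le_norm_sub_add_norm_sub v.1 (x + t • u) y.1
      obtain ⟨w', hw'⟩ := extend (x := v) (y := y) (by linarith) SimpleGraph.Walk.nil
      have a5 : (w'.length : ℝ) ≤ 1 := by exact_mod_cast hw'
      have := (g_bound s).2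
      exact ⟨w', by linarith⟩

lemma walk (x y : P) : ∃ w : G.Walk x y, (w.length : ℝ) ≤ ‖x.1 - y.1‖ + 5 := by
  by_cases h : x = y
  · subst h; exact ⟨SimpleGraph.Walk.nil, by simp⟩
  have h0 : ‖y.1 - x.1‖ ≠ 0 := norm_ne_zero_iff.2 (sub_ne_zero.2 fun e => h (Subtype.ext e.symm))
  obtain ⟨n, hn⟩ := exists_nat_ge (2 * (‖y.1 - x.1‖ - 0))
  obtain ⟨w, hw⟩ := upper x.1 y (‖y.1 - x.1‖⁻¹ • (y.1 - x.1)) (norm_smul_inv_norm (norm_ne_zero_iff.1 h0))
    ‖y.1 - x.1‖ (by rw [smul_smul, mul_inv_cancel₀ h0, one_smul]; abel) n 0 x (norm_nonneg _) hn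
    (by simp)
  refine ⟨w, hw.trans ?_⟩
  have := (g_bound (0 + inner ℝ x.1 (‖y.1 - x.1‖⁻¹ • (y.1 - x.1)))).1
  rw [norm_sub_rev x.1]
  linarith

/-- There is a connected locally finite graph that is roughly isometric to the Euclidean plane with
multiplicative constant one. -/
theorem result : ∃ (V : Type) (G : SimpleGraph V), G.Connected ∧ (∀ v, (G.neighborSet v).Finite) ∧
    ∃ (f : V → EuclideanSpace ℝ (Fin 2)) (C : ℝ), 0 < C ∧
      (∀ x y, |‖f x - f y‖ - (G.dist x y : ℝ)| < C) ∧ ∀ p, ∃ x, dist (f x) p < C := by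
  have hne : Nonempty P := ⟨(near 0).choose⟩
  have hc : G.Connected := ⟨fun x y => ⟨(walk x y).choose⟩⟩
  refine ⟨P, G, hc, fun v => (fin_ball (‖v.1‖ + 1)).subset fun w hw => ?_, Subtype.val, 6,
    by norm_num, fun x y => ?_, fun p => ?_⟩
  · have h1 : ‖v.1 - w.1‖ ≤ 1 := hw.2
    have := norm_sub_norm_le w.1 v.1
    rw [norm_sub_rev] at this
    show ‖w.1‖ ≤ ‖v.1‖ + 1
    linarith
  · obtain ⟨w, hw⟩ := walk x y
    obtain ⟨w', hw'⟩ := (hc.preconnected x y).exists_walk_length_eq_dist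
    have h1 := lower w'
    have h2 : (G.dist x y : ℝ) ≤ w.length := by exact_mod_cast SimpleGraph.dist_le w
    rw [hw'] at h1
    rw [abs_lt]; constructor <;> linarith
  · obtain ⟨v, hv⟩ := near p
    refine ⟨v, ?_⟩
    rw [dist_eq_norm]
    have := norm_nonneg p
    have := norm_nonneg (v.1 - p)
    nlinarith [sq_nonneg ‖p‖]

end Pool.Agent.Results.MP_8ede36_co.LocallyFinite
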